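import Pool.Agent.Helper19.RD.Stmts8
import Pool.Agent.Helper19.RD.PL

/-! Project RD (rd8), row MAIN8. -/

set_option autoImplicit false

namespace Pool.Agent.Helper39.RD8

open Finset Pool.Agent.Helper18.RD Pool.Agent.Helper19.RD

lemma m8_log (N : ℕ) (hN : 1 ≤ N) (c : ℝ) (hc : 0 < c) :
    1 + Real.log N ≤ (1 + 1 / c) * (N : ℝ) ^ c := by
  have hNr : (1 : ℝ) ≤ N := by exact_mod_cast hN
  have h1 : Real.log N ≤ (N : ℝ) ^ c / c := Real.log_le_rpow_div (by linarith) hc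
  have h2 : (1 : ℝ) ≤ (N : ℝ) ^ c := Real.one_le_rpow hNr hc.le
  have h3 : (N : ℝ) ^ c / c = 1 / c * (N : ℝ) ^ c := by ring
  rw [h3] at h1
  nlinarith

/-- at a prime which does not split `J` the fourth power of the sum of the signs is large -/
lemma m8_sum (J : Finset ℕ) (e : ℕ → ℕ → ℤ) (p : ℕ) (ρ : ℝ) (hs : ∀ n l, e n l = 1 ∨ e n l = -1)
    (hρ : ρ ≤ 1 / 8)
    (h : ((Sg J e p 1).card : ℝ) * ((Sg J e p (-1)).card : ℝ) < ρ * (J.card : ℝ) ^ 2) :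
    (J.card : ℝ) ^ 4 / 4 ≤ (∑ n ∈ J, (e n p : ℝ)) ^ 4 := by
  classical
  have hU : J = Sg J e p 1 ∪ Sg J e p (-1) := by
    ext n
    simp only [Sg, mem_union, mem_filter]
    constructor
    · intro hn
      rcases hs n p with h1 | h1
      · exact Or.inl ⟨hn, h1⟩
      · exact Or.inr ⟨hn, h1⟩
    · rintro (h1 | h1)
      · exact h1.1
      · exact h1.1
  have hd : Disjoint (Sg J e p 1) (Sg J e p (-1)) := by
    rw [Finset.disjoint_left]
    intro n h1 h2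
    simp only [Sg, mem_filter] at h1 h2
    have := h1.2.symm.trans h2.2
    norm_num at this
  have hc : (J.card : ℝ) = ((Sg J e p 1).card : ℝ) + ((Sg J e p (-1)).card : ℝ) := by
    have h1 : J.card = (Sg J e p 1 ∪ Sg J e p (-1)).card := congrArg Finset.card hU
    rw [card_union_of_disjoint hd] at h1
    exact_mod_cast h1
  have hS : ∑ n ∈ J, (e n p : ℝ) = ((Sg J e p 1).card : ℝ) - ((Sg J e p (-1)).card : ℝ) := by
    have h1 : ∑ n ∈ J, (e n p : ℝ) = ∑ n ∈ Sg J e p 1 ∪ Sg J e p (-1), (e n p : ℝ) := by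
      rw [← hU]
    rw [h1, sum_union hd]
    have h2 : ∑ n ∈ Sg J e p 1, (e n p : ℝ) = ∑ _n ∈ Sg J e p 1, (1 : ℝ) := by
      apply sum_congr rfl
      intro n hn
      simp only [Sg, mem_filter] at hn
      rw [hn.2]; norm_num
    have h3 : ∑ n ∈ Sg J e p (-1), (e n p : ℝ) = ∑ _n ∈ Sg J e p (-1), (-1 : ℝ) := by
      apply sum_congr rfl
      intro n hn
      simp only [Sg, mem_filter] at hn
      rw [hn.2]; norm_num
    rw [h2, h3, sum_const, sum_const, nsmul_eq_mul, nsmul_eq_mul]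
    ring
  rw [hS, hc]
  rw [hc] at h
  generalize ((Sg J e p 1).card : ℝ) = A at *
  generalize ((Sg J e p (-1)).card : ℝ) = B at *
  have h1 : A * B < 1 / 8 * (A + B) ^ 2 :=
    lt_of_lt_of_le h (mul_le_mul_of_nonneg_right hρ (sq_nonneg _))
  have h2 : (A + B) ^ 2 / 2 ≤ (A - B) ^ 2 := by nlinarith
  have h3 : ((A + B) ^ 2 / 2) ^ 2 ≤ ((A - B) ^ 2) ^ 2 := pow_le_pow_left₀ (by positivity) h2 2
  calc (A + B) ^ 4 / 4 = ((A + B) ^ 2 / 2) ^ 2 := by ring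
    _ ≤ ((A - B) ^ 2) ^ 2 := h3
    _ = (A - B) ^ 4 := by ring

lemma m8_wt (q p : ℕ) (hp : p ∈ OP q) : 1 ≤ wt q p := by
  rw [OP, mem_erase, Nat.mem_primeFactors] at hp
  obtain ⟨h2, hp1, hd, hq⟩ := hp
  have h3 : 3 ≤ p := by
    have := hp1.two_le
    omega
  have hv : 1 ≤ q.factorization p := (Nat.Prime.dvd_iff_one_le_factorization hp1 hq).1 hd
  have h4 : p ≤ p ^ q.factorization p := Nat.le_self_pow (by omega) p
  have h5 : (3 : ℝ) ≤ (pw q p : ℕ) := by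
    have : 3 ≤ pw q p := by rw [pw]; omega
    exact_mod_cast this
  rw [wt]
  have h6 : Real.log 3 ≤ Real.log (pw q p) := Real.log_le_log (by norm_num) h5
  have h7 : (1 : ℝ) ≤ Real.log 3 := by
    rw [Real.le_log_iff_exp_le (by norm_num)]
    have := Real.exp_one_lt_d9
    linarith
  linarith

/-- the final computation -/
lemma m8_alg (CU L Q t ρ T : ℝ) (hCU : 0 < CU) (hL : 1 ≤ L) (hQ : 0 ≤ Q) (ht : 0 < t)
    (hρ : 0 < ρ) (hρ1 : ρ ≤ 1) (hT : ρ ^ 2 * t ^ 2 / (5120 * L) ≤ T)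
    (h : T * (t ^ 4 / 4) ≤ CU * (t ^ 2 * Q + t ^ 4 * Real.sqrt (Q * L))) :
    ρ ^ 4 * t ^ 4 ≤ 3 * (20480 * CU + 1) ^ 2 * L ^ 3 * Q := by
  obtain ⟨r, hr⟩ : ∃ r : ℝ, r = Real.sqrt (Q * L) := ⟨_, rfl⟩
  have hr2 : r ^ 2 = Q * L := by rw [hr]; exact Real.sq_sqrt (by positivity)
  have hr0 : 0 ≤ r := by rw [hr]; exact Real.sqrt_nonneg _
  rw [← hr] at h
  have h1 : ρ ^ 2 * t ^ 2 / (5120 * L) * (t ^ 4 / 4) ≤ CU * (t ^ 2 * Q + t ^ 4 * r) :=
    le_trans (mul_le_mul_of_nonneg_right hT (by positivity)) h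
  have h2 : ρ ^ 2 * t ^ 4 ≤ 20480 * CU * L * (Q + t ^ 2 * r) := by
    have h3 : ρ ^ 2 * t ^ 2 / (5120 * L) * (t ^ 4 / 4) =
        (ρ ^ 2 * t ^ 4) * (t ^ 2 / (20480 * L)) := by
      field_simp; ring
    have h4 : CU * (t ^ 2 * Q + t ^ 4 * r) =
        (20480 * CU * L * (Q + t ^ 2 * r)) * (t ^ 2 / (20480 * L)) := by
      field_simp
    rw [h3, h4] at h1
    exact le_of_mul_le_mul_right h1 (by positivity)
  obtain ⟨A, hA⟩ : ∃ A : ℝ, A = 20480 * CU * L := ⟨_, rfl⟩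
  have hA0 : 0 < A := by rw [hA]; positivity
  rw [← hA] at h2
  have h5 : ρ ^ 4 * t ^ 4 ≤ 2 * A * ρ ^ 2 * Q + A ^ 2 * (Q * L) := by
    have h6 : 0 ≤ (ρ ^ 2 * t ^ 2 - A * r) ^ 2 := sq_nonneg _
    have h7 : ρ ^ 2 * (ρ ^ 2 * t ^ 4) ≤ ρ ^ 2 * (A * (Q + t ^ 2 * r)) :=
      mul_le_mul_of_nonneg_left h2 (by positivity)
    have h8 : (ρ ^ 2 * t ^ 2 - A * r) ^ 2 =
        ρ ^ 4 * t ^ 4 - 2 * (ρ ^ 2 * (A * (t ^ 2 * r))) + A ^ 2 * r ^ 2 := by ring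
    rw [h8, hr2] at h6
    nlinarith
  obtain ⟨B, hB⟩ : ∃ B : ℝ, B = (20480 * CU + 1) * L := ⟨_, rfl⟩
  have hAB : A ≤ B := by rw [hA, hB]; nlinarith
  have hB1 : 1 ≤ B := by
    rw [hB]
    have : 1 ≤ 20480 * CU + 1 := by linarith
    nlinarith
  have h9 : 2 * A * ρ ^ 2 * Q ≤ 2 * B ^ 2 * (Q * L) := by
    have e1 : ρ ^ 2 ≤ 1 := pow_le_one₀ hρ.le hρ1
    have e2 : A * ρ ^ 2 ≤ B ^ 2 := by
      calc A * ρ ^ 2 ≤ A * 1 := mul_le_mul_of_nonneg_left e1 hA0.le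
        _ ≤ B := by linarith
        _ ≤ B ^ 2 := by nlinarith
    have e3 : Q ≤ Q * L := le_mul_of_one_le_right hQ hL
    calc 2 * A * ρ ^ 2 * Q = 2 * (A * ρ ^ 2) * Q := by ring
      _ ≤ 2 * B ^ 2 * (Q * L) := by
        apply mul_le_mul (by linarith) e3 hQ (by positivity)
  have h10 : A ^ 2 * (Q * L) ≤ B ^ 2 * (Q * L) :=
    mul_le_mul_of_nonneg_right (pow_le_pow_left₀ hA0.le hAB 2) (by positivity)
  calc ρ ^ 4 * t ^ 4 ≤ 3 * B ^ 2 * (Q * L) := by linarith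
    _ = 3 * (20480 * CU + 1) ^ 2 * L ^ 3 * Q := by rw [hB]; ring

/-- the number of primes up to `Z` which divide `q` and do not split `J` -/
lemma m8_count (Z : ℕ) (P1 P2 P3 s ρ L ρt t : ℝ) (hZ3 : 3 ≤ Z) (hL : 1 ≤ L)
    (hlog : Real.log Z ≤ 2 * L) (hρ : 0 < ρ) (hρ1 : ρ ≤ 1) (hs : s = Real.sqrt Z)
    (hπ : (Z : ℝ) / (10 * Real.log Z) ≤ 1 + (P1 + P2) + P3)
    (h2 : P2 ≤ 100 * L * s / ρ) (h3 : P3 ≤ 100 * L * s)
    (hρt : ρt = ρ * t) (hZ : ρt ^ 2 / 128 ≤ Z) (hbig : 8040 * L ^ 2 ≤ ρ * s) :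
    ρ ^ 2 * t ^ 2 / (5120 * L) ≤ P1 := by
  have hZr : (3 : ℝ) ≤ Z := by exact_mod_cast hZ3
  have hlog0 : 0 < Real.log Z := Real.log_pos (by linarith)
  have hs2 : s ^ 2 = Z := by rw [hs]; exact Real.sq_sqrt (by linarith)
  have hs1 : 1 ≤ s := by
    rw [hs]
    rw [Real.one_le_sqrt]
    linarith
  have h4 : (Z : ℝ) / (20 * L) ≤ (Z : ℝ) / (10 * Real.log Z) := by
    apply div_le_div_of_nonneg_left (by linarith) (by positivity)
    linarith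
  have hLs : 1 ≤ L * s := by nlinarith
  have h5 : L * s ≤ L * s / ρ := by
    rw [le_div_iff₀ hρ]
    nlinarith
  have h6 : 1 + 100 * L * s / ρ + 100 * L * s ≤ 201 * (L * s / ρ) := by
    have : 100 * L * s / ρ = 100 * (L * s / ρ) := by ring
    rw [this]
    nlinarith
  have h7 : 201 * (L * s / ρ) ≤ (Z : ℝ) / (40 * L) := by
    rw [← hs2]
    have e1 : (201 * (L * s / ρ)) = (8040 * L ^ 2) * (s / (40 * L * ρ)) := by
      field_simp; ring
    have e2 : s ^ 2 / (40 * L) = (ρ * s) * (s / (40 * L * ρ)) := by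
      field_simp
    rw [e1, e2]
    exact mul_le_mul_of_nonneg_right hbig (by positivity)
  have h8 : (Z : ℝ) / (40 * L) ≤ P1 := by
    have e1 : (Z : ℝ) / (20 * L) = (Z : ℝ) / (40 * L) + (Z : ℝ) / (40 * L) := by
      field_simp; ring
    linarith
  refine le_trans ?_ h8
  have e2 : ρ ^ 2 * t ^ 2 / (5120 * L) = (ρt ^ 2 / 128) / (40 * L) := by
    rw [hρt]; field_simp; ring
  rw [e2]
  exact div_le_div_of_nonneg_right hZ (by positivity)

/-- the case of many squares and `N ≤ q` -/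
lemma m8_big (hPG : ST_PG) (hSP1 : ST_SP1) (hSP2 : ST_SP2) (CU : ℝ) (hCU : 0 < CU)
    (hU : ∀ (N q a : ℕ) (S J : Finset ℕ) (e c d : ℕ → ℕ → ℤ)
      (k : ℤ) (w : ℝ) (m : ℕ → ℤ), 1 ≤ N → 1 ≤ q → Nat.Coprime q a → N ≤ q →
      DatR N q a S e c d k w m → J ⊆ S →
      ∑ p ∈ OP q, wt q p * (∑ n ∈ J, (e n p : ℝ)) ^ 4 ≤
        CU * ((J.card : ℝ) ^ 2 * Real.log q +
          (J.card : ℝ) ^ 4 * Real.sqrt (Real.log q * (1 + Real.log N))))
    (N q a : ℕ) (ε δ : ℝ) (hε : 0 < ε) (hδ : 0 < δ) (hδε : δ ≤ ε) (hε1 : ε ≤ 1 / 10)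
    (hN : 1 ≤ N) (hq : 1 ≤ q) (hcop : Nat.Coprime q a) (hNq : N ≤ q)
    (hb : 256 ≤ (N : ℝ) ^ δ) (hc : 126 * (1 + Real.log N) ^ 2 ≤ (N : ℝ) ^ (3 / 10 : ℝ))
    (S J : Finset ℕ) (e c d : ℕ → ℕ → ℤ) (k : ℤ) (w : ℝ) (m : ℕ → ℤ)
    (hD : DatR N q a S e c d k w m) (hJS : J ⊆ S)
    (hbig : (N : ℝ) ^ (1 / 2 + ε) ≤ (SS N q a).card)
    (hJ1 : ((SS N q a).card : ℝ) ≤ (N : ℝ) ^ (ε / 4) * J.card)
    (hTN : ((TN J d).card : ℝ) ≤ (N : ℝ) ^ (-δ) * (J.card : ℝ) ^ 4) :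
    ((SS N q a).card : ℝ) ^ 4 ≤ 3 * (20480 * CU + 1) ^ 2 * (1 + Real.log N) ^ 3 *
      (N : ℝ) ^ (5 * ε) * Real.log q := by
  classical
  have hNr : (1 : ℝ) ≤ N := by exact_mod_cast hN
  have hN0 : (0 : ℝ) < N := by linarith
  have hlogN : 0 ≤ Real.log N := Real.log_nonneg hNr
  obtain ⟨L, hL⟩ : ∃ L : ℝ, L = 1 + Real.log N := ⟨_, rfl⟩
  have hL1 : 1 ≤ L := by rw [hL]; linarith
  rw [← hL] at hc ⊢
  obtain ⟨t, ht⟩ : ∃ t : ℝ, t = (J.card : ℝ) := ⟨_, rfl⟩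
  have ht0' : 0 ≤ t := by rw [ht]; exact Nat.cast_nonneg _
  -- the size of J
  have htN : (N : ℝ) ^ (1 / 2 : ℝ) ≤ t := by
    have h1 : (N : ℝ) ^ (ε / 4) * (N : ℝ) ^ (1 / 2 : ℝ) ≤ (N : ℝ) ^ (ε / 4) * t := by
      calc (N : ℝ) ^ (ε / 4) * (N : ℝ) ^ (1 / 2 : ℝ) = (N : ℝ) ^ (ε / 4 + 1 / 2) := by
            rw [Real.rpow_add hN0]
        _ ≤ (N : ℝ) ^ (1 / 2 + ε) := Real.rpow_le_rpow_of_exponent_le hNr (by linarith)
        _ ≤ _ := hbig
        _ ≤ _ := by rw [ht]; exact hJ1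
    exact le_of_mul_le_mul_left h1 (Real.rpow_pos_of_pos hN0 _)
  have h310 : 126 ≤ (N : ℝ) ^ (3 / 10 : ℝ) := by nlinarith
  have ht126 : 126 ≤ t := by
    refine le_trans h310 (le_trans ?_ htN)
    exact Real.rpow_le_rpow_of_exponent_le hNr (by norm_num)
  have ht0 : 0 < t := by linarith
  have htleN : t ≤ N := by
    have h1 : J ⊆ range N := fun n hn => by
      have h2 := hD.sub (hJS hn)
      rw [SS, mem_filter] at h2
      exact h2.1
    have h2 := card_le_card h1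
    rw [card_range] at h2
    rw [ht]; exact_mod_cast h2
  -- ν and ρ
  obtain ⟨ν, hν⟩ : ∃ ν : ℝ, ν = (N : ℝ) ^ (-δ) := ⟨_, rfl⟩
  have hν0 : 0 < ν := by rw [hν]; exact Real.rpow_pos_of_pos hN0 _
  have hνδ : ν * (N : ℝ) ^ δ = 1 := by
    rw [hν, ← Real.rpow_add hN0]; simp
  have hν1 : ν ≤ 1 / 256 := by nlinarith
  rw [← hν, ← ht] at hTN
  obtain ⟨ρ, hρ⟩ : ∃ ρ : ℝ, ρ = 32 * ν := ⟨_, rfl⟩
  have hρ0 : 0 < ρ := by rw [hρ]; positivity
  have hρ8 : ρ ≤ 1 / 8 := by rw [hρ]; linarith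
  have hJ2 : 2 ≤ J.card := by
    have : (2 : ℝ) ≤ (J.card : ℝ) := by rw [← ht]; linarith
    exact_mod_cast this
  obtain ⟨x, hx, y, hy, hxy, hNQ⟩ := hPG J d ν hJ2 hν0.le (by rw [← ht]; exact hTN)
  -- Z
  have hν2t : (N : ℝ) ^ (3 / 10 : ℝ) ≤ ν ^ 2 * t := by
    have h1 : ν ^ 2 = (N : ℝ) ^ (-(2 * δ)) := by
      rw [hν, ← Real.rpow_natCast, ← Real.rpow_mul hN0.le]
      congr 1; push_cast; ring
    calc (N : ℝ) ^ (3 / 10 : ℝ) ≤ (N : ℝ) ^ (-(2 * δ) + 1 / 2) :=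
          Real.rpow_le_rpow_of_exponent_le hNr (by linarith)
      _ = ν ^ 2 * (N : ℝ) ^ (1 / 2 : ℝ) := by rw [h1, Real.rpow_add hN0]
      _ ≤ ν ^ 2 * t := mul_le_mul_of_nonneg_left htN (by positivity)
  have hρt : 4032 ≤ ρ * t := by
    have h1 : ν ^ 2 * t ≤ ν * t := by
      apply mul_le_mul_of_nonneg_right _ ht0.le
      nlinarith
    rw [hρ]; linarith
  obtain ⟨Z, hZdef⟩ : ∃ Z : ℕ, Z = ⌊(ρ * t / 8) ^ 2⌋₊ := ⟨_, rfl⟩
  have hZ1 : (Z : ℝ) ≤ (ρ * t / 8) ^ 2 := by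
    rw [hZdef]; exact Nat.floor_le (by positivity)
  have hZ2 : (ρ * t / 8) ^ 2 < (Z : ℝ) + 1 := by
    rw [hZdef]; exact Nat.lt_floor_add_one _
  have hZ3 : (ρ * t) ^ 2 / 128 ≤ (Z : ℝ) := by
    have h1 : (2 : ℝ) ≤ (ρ * t / 8) ^ 2 := by nlinarith
    nlinarith
  have hZ3' : 3 ≤ Z := by
    have h1 : (3 : ℝ) ≤ Z := by nlinarith
    exact_mod_cast h1
  have hZr : (3 : ℝ) ≤ Z := by exact_mod_cast hZ3'
  have hρt1 : ρ * t ≤ t := by nlinarith
  have hZt : 64 * (Z : ℝ) ≤ t ^ 2 := by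
    have h1 : (ρ * t) ^ 2 ≤ t ^ 2 := pow_le_pow_left₀ (by positivity) hρt1 2
    nlinarith
  have hZt' : 64 * Z ≤ J.card ^ 2 := by
    rw [ht] at hZt; exact_mod_cast hZt
  obtain ⟨s, hs⟩ : ∃ s : ℝ, s = Real.sqrt Z := ⟨_, rfl⟩
  have hs0 : 0 ≤ s := by rw [hs]; exact Real.sqrt_nonneg _
  have hs8 : 8 * s ≤ ρ * t := by
    have h1 : s ≤ ρ * t / 8 := by
      rw [hs]; exact Real.sqrt_le_iff.2 ⟨by positivity, hZ1⟩
    linarith
  have hs16 : ρ * t / 16 ≤ s := by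
    rw [hs]
    apply Real.le_sqrt_of_sq_le
    nlinarith [sq_nonneg (ρ * t)]
  have hlogZ : Real.log Z ≤ 2 * L := by
    have h1 : (Z : ℝ) ≤ (N : ℝ) ^ 2 := by
      have h2 : t ^ 2 ≤ (N : ℝ) ^ 2 := pow_le_pow_left₀ ht0.le htleN 2
      nlinarith
    have h2 : Real.log Z ≤ Real.log ((N : ℝ) ^ 2) := Real.log_le_log (by linarith) h1
    rw [Real.log_pow] at h2
    push_cast at h2
    rw [hL]; linarith
  -- the two sieve bounds
  have hNQ' : ((NQ J d x y).card : ℝ) ≤ (2 * ν) * (J.card : ℝ) ^ 2 := hNQ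
  have hP3 := hSP1 N q a Z S J e c d k w (2 * ν) m x y hN hq (by omega) hD hJS hx hy hxy hNQ'
    (by linarith) (by
      have : (100 : ℝ) ≤ (J.card : ℝ) := by rw [← ht]; linarith
      exact_mod_cast this) hZt'
  have hP2 := hSP2 N q a Z S J e c d k w (2 * ν) ρ m x y hN hq (by omega) hD hJS hx hy hxy hNQ'
    hρ0 (by rw [hρ]; linarith) (by rw [← ht]; linarith) (by rw [← ht, ← hs]; exact hs8)
  rw [← hL, ← hs] at hP2 hP3
  -- the primes
  obtain ⟨T, hT⟩ : ∃ T : Finset ℕ, T = PP q Z \ SPL q Z J e ρ := ⟨_, rfl⟩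
  have hcard : (PP q Z).card ≤ T.card + (SPL q Z J e ρ).card := by
    rw [hT]
    have := card_le_card_sdiff_add_card (s := PP q Z) (t := SPL q Z J e ρ)
    omega
  have hπ1 := pl_pi Z hZ3'
  have hπ2 := pl_cover q Z hq
  have hπ : (Z : ℝ) / (10 * Real.log Z) ≤
      1 + ((T.card : ℝ) + ((SPL q Z J e ρ).card : ℝ)) + ((NP q Z).card : ℝ) := by
    refine le_trans hπ1 ?_
    have h1 : Nat.primeCounting Z ≤ 1 + (T.card + (SPL q Z J e ρ).card) + (NP q Z).card := by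
      refine le_trans hπ2 ?_
      rw [NP]
      omega
    exact_mod_cast h1
  have hbig2 : 8040 * L ^ 2 ≤ ρ * s := by
    have h1 : ρ * (ρ * t / 16) ≤ ρ * s := mul_le_mul_of_nonneg_left hs16 hρ0.le
    have h2 : ρ * (ρ * t / 16) = 64 * (ν ^ 2 * t) := by rw [hρ]; ring
    rw [h2] at h1
    nlinarith
  have hM := m8_count Z (T.card : ℝ) ((SPL q Z J e ρ).card : ℝ) ((NP q Z).card : ℝ) s ρ L
    (ρ * t) t hZ3' hL1 hlogZ hρ0 (by linarith) hs hπ hP2 hP3 rfl hZ3 hbig2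
  -- the fourth moment
  have hUU := hU N q a S J e c d k w m hN hq hcop hNq hD hJS
  rw [← ht, ← hL] at hUU
  have hlow : (T.card : ℝ) * (t ^ 4 / 4) ≤ ∑ p ∈ OP q, wt q p * (∑ n ∈ J, (e n p : ℝ)) ^ 4 := by
    have hsub : T ⊆ OP q := by
      intro p hp
      rw [hT, mem_sdiff, PP, mem_filter] at hp
      exact hp.1.1
    calc (T.card : ℝ) * (t ^ 4 / 4) = ∑ _p ∈ T, (t ^ 4 / 4) := by
          rw [sum_const, nsmul_eq_mul]
      _ ≤ ∑ p ∈ T, wt q p * (∑ n ∈ J, (e n p : ℝ)) ^ 4 := by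
          apply sum_le_sum
          intro p hp
          have hpO := hsub hp
          rw [hT, mem_sdiff] at hp
          have h1 : ((Sg J e p 1).card : ℝ) * ((Sg J e p (-1)).card : ℝ) <
              ρ * (J.card : ℝ) ^ 2 := by
            by_contra hcon
            push Not at hcon
            apply hp.2
            rw [SPL, mem_filter]
            exact ⟨hp.1, hcon⟩
          have h2 := m8_sum J e p ρ hD.dat.sgn hρ8 h1
          rw [← ht] at h2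
          have h3 := m8_wt q p hpO
          have h4 : 0 ≤ (∑ n ∈ J, (e n p : ℝ)) ^ 4 := by positivity
          nlinarith
      _ ≤ ∑ p ∈ OP q, wt q p * (∑ n ∈ J, (e n p : ℝ)) ^ 4 := by
          apply sum_le_sum_of_subset_of_nonneg hsub
          intro p hp _
          have h3 := m8_wt q p hp
          positivity
  have hQ0 : 0 ≤ Real.log q := Real.log_natCast_nonneg q
  have hfin := m8_alg CU L (Real.log q) t ρ T.card hCU hL1 hQ0 ht0 hρ0 (by linarith) hM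
    (le_trans hlow hUU)
  -- conclusion
  obtain ⟨C6, hC6⟩ : ∃ C6 : ℝ, C6 = 3 * (20480 * CU + 1) ^ 2 := ⟨_, rfl⟩
  rw [← hC6] at hfin ⊢
  have hC60 : 0 ≤ C6 := by rw [hC6]; positivity
  have h1 : (ν * t) ^ 4 ≤ C6 * L ^ 3 * Real.log q := by
    refine le_trans ?_ hfin
    have h2 : ρ ^ 4 * t ^ 4 = 1048576 * (ν * t) ^ 4 := by rw [hρ]; ring
    rw [h2]
    have : 0 ≤ (ν * t) ^ 4 := by positivity
    linarith
  have h2 : ((SS N q a).card : ℝ) ≤ (N : ℝ) ^ (ε / 4 + δ) * (ν * t) := by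
    have h3 : (N : ℝ) ^ (ε / 4 + δ) * (ν * t) = (N : ℝ) ^ (ε / 4) * t := by
      rw [Real.rpow_add hN0]
      calc (N : ℝ) ^ (ε / 4) * (N : ℝ) ^ δ * (ν * t)
          = (N : ℝ) ^ (ε / 4) * t * (ν * (N : ℝ) ^ δ) := by ring
        _ = (N : ℝ) ^ (ε / 4) * t := by rw [hνδ, mul_one]
    rw [h3, ht]; exact hJ1
  calc ((SS N q a).card : ℝ) ^ 4 ≤ ((N : ℝ) ^ (ε / 4 + δ) * (ν * t)) ^ 4 :=
        pow_le_pow_left₀ (Nat.cast_nonneg _) h2 4
    _ = ((N : ℝ) ^ (ε / 4 + δ)) ^ 4 * (ν * t) ^ 4 := by ring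
    _ ≤ (N : ℝ) ^ (5 * ε) * (C6 * L ^ 3 * Real.log q) := by
        apply mul_le_mul _ h1 (by positivity) (by positivity)
        rw [← Real.rpow_natCast, ← Real.rpow_mul hN0.le]
        apply Real.rpow_le_rpow_of_exponent_le hNr
        push_cast
        linarith
    _ = C6 * L ^ 3 * (N : ℝ) ^ (5 * ε) * Real.log q := by ring

theorem st_MAIN8 (hA1 : ST_A1) (hPG : ST_PG) (hSP1 : ST_SP1) (hSP2 : ST_SP2) (hUNS : ST_UNS)
    (hM2 : ST_MAIN2) : ST_MAIN8 := by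
  classical
  intro ε hε
  obtain ⟨η, hη⟩ : ∃ η : ℝ, η = min (ε / 2) (1 / 10) := ⟨_, rfl⟩
  have hη0 : 0 < η := by rw [hη]; exact lt_min (by positivity) (by norm_num)
  have hη1 : η ≤ 1 / 10 := by rw [hη]; exact min_le_right _ _
  have hη2 : η ≤ ε / 2 := by rw [hη]; exact min_le_left _ _
  obtain ⟨δ, N0, hδ, hδη, hA⟩ := hA1 η hη0 hη1
  obtain ⟨CU, hCU, hU⟩ := hUNS
  obtain ⟨CM, hM⟩ := hM2
  obtain ⟨N1, hN1⟩ : ∃ N1 : ℕ, ∀ N : ℕ, N1 ≤ N → N0 ≤ N ∧ 256 ≤ (N : ℝ) ^ δ ∧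
      15246 ≤ (N : ℝ) ^ (1 / 10 : ℝ) ∧ 1 + 4 / ε ≤ (N : ℝ) ^ (ε / 4) := by
    have e1 := ((tendsto_rpow_atTop hδ).comp tendsto_natCast_atTop_atTop).eventually_ge_atTop
      (256 : ℝ)
    have e2 := ((tendsto_rpow_atTop (show (0 : ℝ) < 1 / 10 by norm_num)).comp
      tendsto_natCast_atTop_atTop).eventually_ge_atTop (15246 : ℝ)
    have e3 := ((tendsto_rpow_atTop (show (0 : ℝ) < ε / 4 by positivity)).comp
      tendsto_natCast_atTop_atTop).eventually_ge_atTop (1 + 4 / ε)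
    obtain ⟨N1, hN1⟩ := Filter.eventually_atTop.mp
      ((Filter.eventually_ge_atTop N0).and (e1.and (e2.and e3)))
    exact ⟨N1, fun N hN => hN1 N hN⟩
  obtain ⟨C6, hC6⟩ : ∃ C6 : ℝ, C6 = 3 * (20480 * CU + 1) ^ 2 := ⟨_, rfl⟩
  have hC60 : 0 ≤ C6 := by rw [hC6]; positivity
  obtain ⟨C, hC⟩ : ∃ C : ℝ, C = N1 + C6 + 2 * |CM| + 1 := ⟨_, rfl⟩
  have hN1' : (0 : ℝ) ≤ N1 := Nat.cast_nonneg _
  have hCM : 0 ≤ |CM| := abs_nonneg _
  have hC0 : 0 ≤ C := by rw [hC]; positivity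
  refine ⟨C, ?_⟩
  intro N q a hN hq hcop
  have hNr : (1 : ℝ) ≤ N := by exact_mod_cast hN
  have hN0 : (0 : ℝ) < N := by linarith
  have hlogN : 0 ≤ Real.log N := Real.log_nonneg hNr
  have hQ0 : 0 ≤ Real.log q := Real.log_natCast_nonneg q
  have hNε : 1 ≤ (N : ℝ) ^ ε := Real.one_le_rpow hNr hε.le
  have hsq1 : 1 ≤ Real.sqrt N := by rw [Real.one_le_sqrt]; exact hNr
  have hQ4 : 0 ≤ (Real.log q) ^ (1 / 4 : ℝ) := Real.rpow_nonneg hQ0 _
  change ((SS N q a).card : ℝ) ≤ _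
  have hSN : ((SS N q a).card : ℝ) ≤ N := by
    have h1 : (SS N q a).card ≤ N := by
      calc (SS N q a).card ≤ (range N).card := card_filter_le _ _
        _ = N := card_range N
    exact_mod_cast h1
  have hpos : 0 ≤ C * (N : ℝ) ^ ε * (Real.log q) ^ (1 / 4 : ℝ) := by positivity
  have hpos2 : 0 ≤ C * (N : ℝ) ^ ε * Real.sqrt N := by positivity
  rw [mul_add]
  by_cases hNN : N < N1
  · have h1 : (N : ℝ) ≤ N1 := by exact_mod_cast hNN.le
    have h2 : (N1 : ℝ) ≤ C := by rw [hC]; linarith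
    have h3 : C ≤ C * (N : ℝ) ^ ε * Real.sqrt N := by
      have : 1 ≤ (N : ℝ) ^ ε * Real.sqrt N := one_le_mul_of_one_le_of_one_le hNε hsq1
      nlinarith
    linarith
  push Not at hNN
  obtain ⟨ha, hb, hc, hd⟩ := hN1 N hNN
  have hL2 : 1 + Real.log N ≤ (N : ℝ) ^ (ε / 2) := by
    have h1 := m8_log N hN (ε / 4) (by positivity)
    have h2 : 1 + 1 / (ε / 4) = 1 + 4 / ε := by field_simp
    rw [h2] at h1
    refine le_trans h1 ?_
    calc (1 + 4 / ε) * (N : ℝ) ^ (ε / 4) ≤ (N : ℝ) ^ (ε / 4) * (N : ℝ) ^ (ε / 4) :=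
          mul_le_mul_of_nonneg_right hd (by positivity)
      _ = (N : ℝ) ^ (ε / 2) := by rw [← Real.rpow_add hN0]; congr 1; ring
  by_cases hqN : q < N
  · -- small moduli
    have h1 := hM N q 1 a hN hq le_rfl (Nat.coprime_one_right q) (by rw [mul_one]; exact hcop)
    have h2 : ((range N).filter (fun n => IsSquare (q * 1 * n + a))) = SS N q a := by
      rw [SS]
      apply filter_congr
      intro n _
      rw [mul_one]
    rw [h2, Nat.primeFactors_one, card_empty] at h1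
    have h3 : Real.log q ≤ N := by
      have h4 : Real.log q ≤ q := by
        have := Real.log_le_sub_one_of_pos (show (0 : ℝ) < q by exact_mod_cast hq)
        linarith
      have h5 : (q : ℝ) ≤ N := by exact_mod_cast hqN.le
      linarith
    have h4 : Real.sqrt (Real.log q) ≤ Real.sqrt N := Real.sqrt_le_sqrt h3
    have h5 : ((SS N q a).card : ℝ) ≤ |CM| * ((1 + Real.log N) * (2 * Real.sqrt N)) := by
      refine le_trans h1 ?_
      have h6 : 0 ≤ (1 + Real.log N) * (Real.sqrt N + Real.sqrt (Real.log q)) := by positivity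
      calc CM * ((1 + Real.log N) * (Real.sqrt N + Real.sqrt (Real.log q)) + ((0 : ℕ) : ℝ))
          = CM * ((1 + Real.log N) * (Real.sqrt N + Real.sqrt (Real.log q))) := by
            push_cast; ring
        _ ≤ |CM| * ((1 + Real.log N) * (Real.sqrt N + Real.sqrt (Real.log q))) :=
            mul_le_mul_of_nonneg_right (le_abs_self _) h6
        _ ≤ |CM| * ((1 + Real.log N) * (2 * Real.sqrt N)) := by
            apply mul_le_mul_of_nonneg_left _ hCM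
            apply mul_le_mul_of_nonneg_left _ (by linarith)
            linarith
    have h6 : 1 + Real.log N ≤ (N : ℝ) ^ ε :=
      le_trans hL2 (Real.rpow_le_rpow_of_exponent_le hNr (by linarith))
    have h7 : |CM| * ((1 + Real.log N) * (2 * Real.sqrt N)) ≤
        C * (N : ℝ) ^ ε * Real.sqrt N := by
      have h8 : 2 * |CM| ≤ C := by rw [hC]; linarith
      calc |CM| * ((1 + Real.log N) * (2 * Real.sqrt N))
          = (2 * |CM|) * (1 + Real.log N) * Real.sqrt N := by ring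
        _ ≤ C * (N : ℝ) ^ ε * Real.sqrt N := by
            apply mul_le_mul_of_nonneg_right _ (Real.sqrt_nonneg _)
            exact mul_le_mul h8 h6 (by linarith) hC0
    linarith
  push Not at hqN
  by_cases hbig : (N : ℝ) ^ (1 / 2 + η) ≤ (SS N q a).card
  · obtain ⟨S, J, e, c, d, k, w, m, hD, hJS, hJ1, hTN⟩ := hA N q a ha hq hcop hbig
    have hc2 : 126 * (1 + Real.log N) ^ 2 ≤ (N : ℝ) ^ (3 / 10 : ℝ) := by
      have h1 := m8_log N hN (1 / 10) (by norm_num)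
      have h2 : (1 + 1 / (1 / 10 : ℝ)) = 11 := by norm_num
      rw [h2] at h1
      have h3 : (1 + Real.log N) ^ 2 ≤ (11 * (N : ℝ) ^ (1 / 10 : ℝ)) ^ 2 :=
        pow_le_pow_left₀ (by linarith) h1 2
      have h4 : (N : ℝ) ^ (3 / 10 : ℝ) =
          (N : ℝ) ^ (1 / 10 : ℝ) * ((N : ℝ) ^ (1 / 10 : ℝ)) ^ 2 := by
        rw [← Real.rpow_natCast, ← Real.rpow_mul hN0.le, ← Real.rpow_add hN0]
        congr 1; norm_num
      rw [h4]
      have h5 : 0 ≤ ((N : ℝ) ^ (1 / 10 : ℝ)) ^ 2 := by positivity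
      nlinarith
    have h1 := m8_big hPG hSP1 hSP2 CU hCU hU N q a η δ hη0 hδ hδη hη1 hN hq hcop hqN hb hc2
      S J e c d k w m hD hJS hbig hJ1 hTN
    rw [← hC6] at h1
    have h2 : ((SS N q a).card : ℝ) ^ 4 ≤
        (C * (N : ℝ) ^ ε * (Real.log q) ^ (1 / 4 : ℝ)) ^ 4 := by
      have h3 : (1 + Real.log N) ^ 3 ≤ (N : ℝ) ^ (3 * ε / 2) := by
        calc (1 + Real.log N) ^ 3 ≤ ((N : ℝ) ^ (ε / 2)) ^ 3 :=
              pow_le_pow_left₀ (by linarith) hL2 3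
          _ = (N : ℝ) ^ (3 * ε / 2) := by
              rw [← Real.rpow_natCast, ← Real.rpow_mul hN0.le]
              congr 1; push_cast; ring
      have h4 : (1 + Real.log N) ^ 3 * (N : ℝ) ^ (5 * η) ≤ ((N : ℝ) ^ ε) ^ 4 := by
        calc (1 + Real.log N) ^ 3 * (N : ℝ) ^ (5 * η) ≤
              (N : ℝ) ^ (3 * ε / 2) * (N : ℝ) ^ (5 * η) :=
              mul_le_mul_of_nonneg_right h3 (by positivity)
          _ = (N : ℝ) ^ (3 * ε / 2 + 5 * η) := by rw [Real.rpow_add hN0]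
          _ ≤ (N : ℝ) ^ (ε * (4 : ℕ)) := by
              apply Real.rpow_le_rpow_of_exponent_le hNr
              push_cast
              linarith
          _ = ((N : ℝ) ^ ε) ^ 4 := by rw [Real.rpow_mul hN0.le, Real.rpow_natCast]
      have h5 : ((Real.log q) ^ (1 / 4 : ℝ)) ^ 4 = Real.log q := by
        rw [← Real.rpow_natCast, ← Real.rpow_mul hQ0]
        norm_num
      have h6 : C6 ≤ C ^ 4 := by
        have e1 : C6 ≤ C := by rw [hC]; linarith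
        have e2 : 1 ≤ C := by rw [hC]; linarith
        have e3 : C ≤ C ^ 4 := by
          calc C = C ^ 1 := (pow_one C).symm
            _ ≤ C ^ 4 := pow_le_pow_right₀ e2 (by norm_num)
        linarith
      calc ((SS N q a).card : ℝ) ^ 4
          ≤ C6 * (1 + Real.log N) ^ 3 * (N : ℝ) ^ (5 * η) * Real.log q := h1
        _ = C6 * ((1 + Real.log N) ^ 3 * (N : ℝ) ^ (5 * η)) * Real.log q := by ring
        _ ≤ C ^ 4 * ((N : ℝ) ^ ε) ^ 4 * Real.log q := by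
            apply mul_le_mul_of_nonneg_right _ hQ0
            exact mul_le_mul h6 h4 (by positivity) (by positivity)
        _ = (C * (N : ℝ) ^ ε * (Real.log q) ^ (1 / 4 : ℝ)) ^ 4 := by
            rw [mul_pow, mul_pow, h5]
    have h7 : ((SS N q a).card : ℝ) ≤ C * (N : ℝ) ^ ε * (Real.log q) ^ (1 / 4 : ℝ) :=
      le_of_pow_le_pow_left₀ (by norm_num) hpos h2
    linarith
  · push Not at hbig
    have h1 : (N : ℝ) ^ (1 / 2 + η) ≤ (N : ℝ) ^ ε * Real.sqrt N := by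
      rw [Real.sqrt_eq_rpow, ← Real.rpow_add hN0]
      exact Real.rpow_le_rpow_of_exponent_le hNr (by linarith)
    have h2 : (N : ℝ) ^ ε * Real.sqrt N ≤ C * (N : ℝ) ^ ε * Real.sqrt N := by
      have h3 : 1 ≤ C := by rw [hC]; linarith
      have h4 : 0 ≤ (N : ℝ) ^ ε * Real.sqrt N := by positivity
      nlinarith
    linarith

end Pool.Agent.Helper39.RD8
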